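import Pool.Agent.helper12.LE.SpecB
import Pool.Agent.helper59.FI.Base

set_option autoImplicit false

namespace Pool.Agent.LE

open Pool.Agent.helper58.DC Pool.Agent.DI Pool.Agent.GR Pool.Agent.OB Pool.Agent.DR Pool.Agent.FI Pool.Agent.FI3 Pool.Agent.FI4 Pool.Agent.FI4C Pool.Agent.FI4B

theorem KXB (hKSG : KSG_stmt) (hKAM : KAM_stmt) (hKXC : KXC_stmt) (hKRP : KRP_stmt) (hTPR : Pool.Agent.FI.TPR_stmt) : KXB_stmt := by
  classical
  intro p M hS hp2 G _ _ D x θ χ hL h g K u hK m hm hht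
  obtain ⟨-, hT2, -, -, -⟩ := hTPR p M hS G
  have hθχ : SB M (⊤ : Subgroup G) θ χ := (hT2 θ χ).1 hL.rt.ind
  have hBB : Blk M χ (⊤ : Subgroup G) = Bl M (⊤ : Subgroup G) θ := by
    ext ψ
    constructor
    · rintro ⟨a1, a2⟩
      exact ⟨a1, ((hT2 ψ χ).1 a2).trans hθχ.symm⟩
    · rintro ⟨a1, a2⟩
      exact ⟨a1, (hT2 ψ χ).2 (a2.trans hθχ)⟩
  obtain ⟨ε, hε⟩ := hKSG p M hS hp2 G D x θ χ hL
  rw [hBB] at hht ⊢
  have hfin : {ψ : G → ℂ | ψ ∈ Bl M (⊤ : Subgroup G) θ ∧ PR m ψ}.Finite :=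
    (IrrOn_fin (⊤ : Subgroup G)).subset fun ψ hψ => hψ.1.1
  have hD0 : 0 < Nat.card D := Nat.card_pos
  have hK0 : 0 < Nat.card K := Nat.card_pos
  have hp0 : 0 < p := hS.pr.pos
  have hn0 : 0 < p * Nat.card D := Nat.mul_pos hp0 hD0
  have hφ0 : 0 < Nat.totient (p * Nat.card D) := Nat.totient_pos.2 hn0
  have hSc : ((Finset.range (p * Nat.card D)).filter (fun s => s.Coprime (p * Nat.card D))).card = Nat.totient (p * Nat.card D) := by
    rw [Nat.totient_eq_card_coprime]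
    refine congrArg Finset.card (Finset.filter_congr fun s _ => ?_)
    exact Nat.coprime_comm
  have hsp : ∀ s ∈ (Finset.range (p * Nat.card D)).filter (fun s => s.Coprime (p * Nat.card D)), ¬ p ∣ s := by
    intro s hs hps
    have h1 : s.Coprime (p * Nat.card D) := (Finset.mem_filter.1 hs).2
    have h2 : p ∣ Nat.gcd s (p * Nat.card D) := Nat.dvd_gcd hps (Dvd.intro _ rfl)
    rw [h1] at h2
    exact hS.pr.one_lt.ne' (Nat.dvd_one.1 h2)
  have h1 : ∀ ψ ∈ hfin.toFinset, (Nat.card K : ℝ) ^ 2 * Nat.totient (p * Nat.card D) ≤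
      ∑ s ∈ (Finset.range (p * Nat.card D)).filter (fun s => s.Coprime (p * Nat.card D)), ‖ZK M θ ε K ψ (u ^ s)‖ ^ 2 := by
    intro ψ hψ
    have h2 := (Set.Finite.mem_toFinset _).1 hψ
    exact hKAM p M hS hp2 G D x θ χ hL ε hε h g K u hK m hm ψ h2.1 h2.2 (hht ψ h2.1)
  have h3 : ∀ s ∈ (Finset.range (p * Nat.card D)).filter (fun s => s.Coprime (p * Nat.card D)),
      (p : ℝ) ^ g * ∑ ψ ∈ hfin.toFinset, ‖ZK M θ ε K ψ (u ^ s)‖ ^ 2 ≤ (Nat.card K : ℝ) * Nat.card D := by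
    intro s hs
    have h4 := hKRP p M hS.pr G D θ hL.rt.th hL.rt.dfa.pgrp hL.rt.com h g K u hK s (hsp s hs)
    have h5 := hKXC p M hS hp2 G D x θ χ hL ε hε h g K (u ^ s) h4 m hm
    rw [finsum_mem_eq_finite_toFinset_sum _ hfin] at h5
    exact h5
  have h6 : (hfin.toFinset.card : ℝ) * ((Nat.card K : ℝ) ^ 2 * Nat.totient (p * Nat.card D)) ≤
      ∑ s ∈ (Finset.range (p * Nat.card D)).filter (fun s => s.Coprime (p * Nat.card D)), ∑ ψ ∈ hfin.toFinset, ‖ZK M θ ε K ψ (u ^ s)‖ ^ 2 := by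
    rw [Finset.sum_comm, ← nsmul_eq_mul]
    exact Finset.card_nsmul_le_sum _ _ _ h1
  have h7 : (p : ℝ) ^ g * ((hfin.toFinset.card : ℝ) * ((Nat.card K : ℝ) ^ 2 * Nat.totient (p * Nat.card D))) ≤
      (Nat.totient (p * Nat.card D) : ℝ) * ((Nat.card K : ℝ) * Nat.card D) := by
    refine le_trans (mul_le_mul_of_nonneg_left h6 (by positivity)) ?_
    rw [Finset.mul_sum]
    have h8 := Finset.sum_le_card_nsmul _ _ _ h3
    rw [hSc, nsmul_eq_mul] at h8
    exact h8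
  have hKR : (0 : ℝ) < Nat.card K := by exact_mod_cast hK0
  have hφR : (0 : ℝ) < Nat.totient (p * Nat.card D) := by exact_mod_cast hφ0
  have h9 : (hfin.toFinset.card : ℝ) * Nat.card K * (p : ℝ) ^ g ≤ Nat.card D := by
    have h10 : ((Nat.totient (p * Nat.card D) : ℝ) * Nat.card K) * ((hfin.toFinset.card : ℝ) * Nat.card K * (p : ℝ) ^ g) ≤
        ((Nat.totient (p * Nat.card D) : ℝ) * Nat.card K) * Nat.card D := by
      calc ((Nat.totient (p * Nat.card D) : ℝ) * Nat.card K) * ((hfin.toFinset.card : ℝ) * Nat.card K * (p : ℝ) ^ g)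
          = (p : ℝ) ^ g * ((hfin.toFinset.card : ℝ) * ((Nat.card K : ℝ) ^ 2 * Nat.totient (p * Nat.card D))) := by ring
        _ ≤ (Nat.totient (p * Nat.card D) : ℝ) * ((Nat.card K : ℝ) * Nat.card D) := h7
        _ = ((Nat.totient (p * Nat.card D) : ℝ) * Nat.card K) * Nat.card D := by ring
    exact le_of_mul_le_mul_left h10 (mul_pos hφR hKR)
  rw [Set.ncard_eq_toFinset_card _ hfin]
  exact_mod_cast h9

end Pool.Agent.LE
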